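import Pool.Agent.V5helper19.QC.Stm

/-!
# Project QC, job H2: the function `(s / sinh s) ^ 2`
-/

set_option autoImplicit false

open Real Set

namespace V5helper7.QC

open V5helper19.QC

/-- the function in the variable `s = x / 2` -/
noncomputable def FF (s : ℝ) : ℝ := (s / sinh s) ^ 2

theorem sinh_pos' {s : ℝ} (hs : 0 < s) : 0 < sinh s := Real.sinh_pos_iff.2 hs

theorem hh_eq {x : ℝ} (hx : 0 < x) : hh x = FF (x / 2) := by
  have h1 : 0 < sinh (x / 2) := sinh_pos' (by linarith)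
  have h2 : exp x = exp (x / 2) * exp (x / 2) := by rw [← exp_add]; ring_nf
  have h3 : exp x - 1 = 2 * sinh (x / 2) * exp (x / 2) := by
    rw [Real.sinh_eq]
    have h4 : exp (-(x / 2)) * exp (x / 2) = 1 := by rw [← exp_add]; simp
    rw [h2]
    linear_combination h4
  unfold hh FF
  rw [h3, h2]
  have h5 : exp (x / 2) ≠ 0 := (exp_pos _).ne'
  have h6 : sinh (x / 2) ≠ 0 := h1.ne'
  field_simp

theorem s_cosh {s : ℝ} (hs : 0 ≤ s) : s ^ 3 / 3 ≤ s * cosh s - sinh s := by
  have hder : ∀ t : ℝ, HasDerivAt (fun t : ℝ => t * cosh t - sinh t - t ^ 3 / 3)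
      (t * sinh t - t ^ 2) t := by
    intro t
    have h1 := ((hasDerivAt_id t).mul (Real.hasDerivAt_cosh t)).sub (Real.hasDerivAt_sinh t)
    have h2 := ((hasDerivAt_pow 3 t).div_const 3)
    have h3 := h1.sub h2
    refine h3.congr_deriv ?_
    simp
  have hmono : MonotoneOn (fun t : ℝ => t * cosh t - sinh t - t ^ 3 / 3) (Ici 0) := by
    refine monotoneOn_of_deriv_nonneg (convex_Ici 0) ?_ ?_ ?_
    · exact fun t _ => (hder t).continuousAt.continuousWithinAt
    · exact fun t _ => (hder t).differentiableAt.differentiableWithinAt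
    · intro t ht
      rw [interior_Ici, mem_Ioi] at ht
      rw [(hder t).deriv]
      have h1 : t ≤ sinh t := Real.self_le_sinh_iff.2 ht.le
      nlinarith
  have := hmono (Set.mem_Ici.2 (le_refl (0 : ℝ))) (Set.mem_Ici.2 hs) hs
  simp at this
  linarith

theorem sinh_le {s : ℝ} (hs : 0 ≤ s) : sinh s ≤ s * cosh s := by
  have h1 := s_cosh hs
  have h2 : 0 ≤ s ^ 3 / 3 := by positivity
  linarith

theorem FF_deriv {s : ℝ} (hs : 0 < s) :
    HasDerivAt FF (2 * (s / sinh s) * ((sinh s - s * cosh s) / sinh s ^ 2)) s := by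
  have h1 : sinh s ≠ 0 := (sinh_pos' hs).ne'
  have h2 := ((hasDerivAt_id s).div (Real.hasDerivAt_sinh s) h1).pow 2
  refine h2.congr_deriv ?_
  simp

theorem FF_anti : AntitoneOn FF (Ioi 0) := by
  refine antitoneOn_of_deriv_nonpos (convex_Ioi 0) ?_ ?_ ?_
  · exact fun t ht => (FF_deriv ht).continuousAt.continuousWithinAt
  · intro t ht
    rw [interior_Ioi] at ht
    exact (FF_deriv ht).differentiableAt.differentiableWithinAt
  · intro t ht
    rw [interior_Ioi] at ht
    have ht' : 0 < t := ht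
    rw [(FF_deriv ht').deriv]
    have h1 := sinh_pos' ht'
    have h2 := sinh_le ht'.le
    have h3 : (sinh t - t * cosh t) / sinh t ^ 2 ≤ 0 :=
      div_nonpos_of_nonpos_of_nonneg (by linarith) (by positivity)
    have h4 : 0 ≤ 2 * (t / sinh t) := by positivity
    exact mul_nonpos_of_nonneg_of_nonpos h4 h3

theorem FF_strong : AntitoneOn (fun s => FF s + (1 / (3 * cosh (3 / 2) ^ 3)) * s ^ 2)
    (Ioc 0 (3 / 2)) := by
  set K := cosh (3 / 2 : ℝ) with hK
  have hK1 : 1 ≤ K := Real.one_le_cosh _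
  have hder : ∀ t : ℝ, 0 < t → HasDerivAt (fun s => FF s + (1 / (3 * K ^ 3)) * s ^ 2)
      (2 * (t / sinh t) * ((sinh t - t * cosh t) / sinh t ^ 2) + (1 / (3 * K ^ 3)) * (2 * t)) t := by
    intro t ht
    have h2 := (hasDerivAt_pow 2 t).const_mul (1 / (3 * K ^ 3))
    refine ((FF_deriv ht).add h2).congr_deriv ?_
    simp
  refine antitoneOn_of_deriv_nonpos (convex_Ioc 0 (3 / 2)) ?_ ?_ ?_
  · exact fun t ht => (hder t ht.1).continuousAt.continuousWithinAt
  · intro t ht
    rw [interior_Ioc] at ht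
    exact (hder t ht.1).differentiableAt.differentiableWithinAt
  · intro t ht
    rw [interior_Ioc] at ht
    obtain ⟨ht0, ht1⟩ := ht
    rw [(hder t ht0).deriv]
    have h1 := sinh_pos' ht0
    have h2 := s_cosh ht0.le
    have hc : cosh t ≤ K := by
      rw [hK, Real.cosh_le_cosh, abs_of_pos ht0, abs_of_pos (by norm_num)]
      exact ht1.le
    have h3 : sinh t ≤ t * K := (sinh_le ht0.le).trans (mul_le_mul_of_nonneg_left hc ht0.le)
    have h4 : 1 / K ≤ t / sinh t := by
      rw [div_le_div_iff₀ (by positivity) h1]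
      linarith
    -- the derivative of `FF` is at most `- (2 / 3) t (t / sinh t) ^ 3`
    have h5 : (sinh t - t * cosh t) / sinh t ^ 2 ≤ -(t ^ 3 / 3) / sinh t ^ 2 :=
      div_le_div_of_nonneg_right (by linarith) (by positivity)
    have h6 : 2 * (t / sinh t) * ((sinh t - t * cosh t) / sinh t ^ 2) ≤
        2 * (t / sinh t) * (-(t ^ 3 / 3) / sinh t ^ 2) :=
      mul_le_mul_of_nonneg_left h5 (by positivity)
    have h7 : 2 * (t / sinh t) * (-(t ^ 3 / 3) / sinh t ^ 2) = -(2 / 3 * t * (t / sinh t) ^ 3) := by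
      field_simp
    have h8 : (1 / K) ^ 3 ≤ (t / sinh t) ^ 3 := pow_le_pow_left₀ (by positivity) h4 3
    have h9 : 2 / 3 * t * (1 / K) ^ 3 ≤ 2 / 3 * t * (t / sinh t) ^ 3 :=
      mul_le_mul_of_nonneg_left h8 (by positivity)
    have h10 : (1 / (3 * K ^ 3)) * (2 * t) = 2 / 3 * t * (1 / K) ^ 3 := by
      field_simp
    rw [h10]
    linarith

theorem FF_pos {s : ℝ} (hs : 0 < s) : 0 < FF s := by
  have := sinh_pos' hs
  unfold FF
  positivity

theorem FF_le_one {s : ℝ} (hs : 0 < s) : FF s ≤ 1 := by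
  have h1 := sinh_pos' hs
  have h2 : s ≤ sinh s := Real.self_le_sinh_iff.2 hs.le
  unfold FF
  have h3 : s / sinh s ≤ 1 := (div_le_one h1).2 h2
  exact pow_le_one₀ (by positivity) h3

theorem FF_ge {s : ℝ} (hs : 0 < s) : 1 - s ^ 2 ≤ FF s := by
  have h1 := sinh_pos' hs
  have h2 := sinh_le hs.le
  have h3 : cosh s ≤ exp (s ^ 2 / 2) := Real.cosh_le_exp_half_sq s
  have hc : 0 < cosh s := Real.cosh_pos s
  have h4 : exp (-(s ^ 2 / 2)) ≤ s / sinh s := by
    rw [exp_neg, ← one_div, div_le_div_iff₀ (exp_pos _) h1]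
    have : s * cosh s ≤ s * exp (s ^ 2 / 2) := mul_le_mul_of_nonneg_left h3 hs.le
    linarith
  have h5 : exp (-(s ^ 2 / 2)) ^ 2 ≤ (s / sinh s) ^ 2 := pow_le_pow_left₀ (exp_pos _).le h4 2
  have h6 : exp (-(s ^ 2 / 2)) ^ 2 = exp (-(s ^ 2)) := by
    rw [← exp_nat_mul]
    congr 1
    push_cast
    ring
  have h7 := Real.add_one_le_exp (-(s ^ 2))
  unfold FF
  rw [h6] at h5
  linarith

theorem t_H2 : S_H2 := by
  refine ⟨fun x hx => ?_, fun x y hx hxy => ?_, ⟨32, by norm_num, fun x hx => ?_⟩, ?_⟩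
  · have hs : 0 < x / 2 := by linarith
    rw [hh_eq hx]
    refine ⟨FF_pos hs, FF_le_one hs, ?_⟩
    have h1 := FF_ge hs
    nlinarith
  · have hy : 0 < y := by linarith
    rw [hh_eq hx, hh_eq hy]
    exact FF_anti (show (0 : ℝ) < x / 2 by linarith) (show (0 : ℝ) < y / 2 by linarith)
      (by linarith)
  · rcases le_total x 1 with h | h
    · have h1 : hh x ≤ 1 := by
        rw [hh_eq hx]
        exact FF_le_one (by linarith)
      have h2 : (1 : ℝ) + -(x / 2) ≤ exp (-(x / 2)) := by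
        have := Real.add_one_le_exp (-(x / 2))
        linarith
      linarith
    · have h1 : (2 : ℝ) ≤ exp x := by
        have := Real.add_one_le_exp x
        linarith
      have h2 : x ^ 2 ≤ 8 * exp (x / 2) := by
        have := Real.quadratic_le_exp_of_nonneg (x := x / 2) (by linarith)
        nlinarith
      have h3 : exp x = exp (x / 2) * exp (x / 2) := by rw [← exp_add]; ring_nf
      have h4 : exp (-(x / 2)) * exp (x / 2) = 1 := by rw [← exp_add]; simp
      have h5 : 0 < exp (x / 2) := exp_pos _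
      have h6 : (exp x / 2) ^ 2 ≤ (exp x - 1) ^ 2 := pow_le_pow_left₀ (by positivity) (by linarith) 2
      unfold hh
      have h7 : x ^ 2 * exp x / (exp x - 1) ^ 2 ≤ x ^ 2 * exp x / (exp x / 2) ^ 2 :=
        div_le_div_of_nonneg_left (by positivity) (by positivity) h6
      refine h7.trans ?_
      have h8 : x ^ 2 * exp x / (exp x / 2) ^ 2 = 4 * x ^ 2 / exp x := by
        have : exp x ≠ 0 := (exp_pos _).ne'
        field_simp
        ring
      rw [h8, div_le_iff₀ (exp_pos _)]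
      have h9 : 32 * exp (-(x / 2)) * exp x = 32 * exp (x / 2) := by
        rw [h3]
        linear_combination 32 * exp (x / 2) * h4
      rw [h9]
      linarith
  · refine ⟨1 / (12 * cosh (3 / 2) ^ 3), by have := Real.cosh_pos (3 / 2 : ℝ); positivity, ?_⟩
    intro x y hx hxy hy
    have hy0 : 0 < y := by linarith
    rw [hh_eq hx, hh_eq hy0]
    have h1 := FF_strong (show x / 2 ∈ Ioc (0 : ℝ) (3 / 2) from ⟨by linarith, by linarith⟩)
      (show y / 2 ∈ Ioc (0 : ℝ) (3 / 2) from ⟨by linarith, by linarith⟩) (by linarith)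
    simp only at h1
    have hc : 0 < cosh (3 / 2 : ℝ) := Real.cosh_pos _
    have h2 : 1 / (12 * cosh (3 / 2 : ℝ) ^ 3) * (y ^ 2 - x ^ 2) =
        1 / (3 * cosh (3 / 2) ^ 3) * (y / 2) ^ 2 - 1 / (3 * cosh (3 / 2) ^ 3) * (x / 2) ^ 2 := by
      field_simp
      ring
    rw [h2]
    linarith

end V5helper7.QC
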